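import Pool.Agent.Results.MP_696765_co.IrreducibleUnbounded

/-!
# Irreducible generating sets of involutions with Cayley graphs of large chromatic number

A variant of the construction of the starting file `MP_696765_co.IrreducibleUnbounded` in which all
the generators are involutions.
-/

set_option autoImplicit false

namespace Pool.Agent.U401.Inv

open Pool.Agent.Results.MP_696765_co.IrreducibleUnbounded

section Step

variable {G : Type} [Group G] {ι : Type} [DecidableEq ι]

theorem ta_ta (j : ι) (A : Finset ι) (p : Pt G ι) :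
    (fun p : Pt G ι => ((p.2 j, fun i => if i = j then p.1 else if i ∈ A then
      p.1 * ((p.2 j)⁻¹ * p.2 i) else p.2 i) : Pt G ι))
    ((fun p : Pt G ι => ((p.2 j, fun i => if i = j then p.1 else if i ∈ A then
      p.1 * ((p.2 j)⁻¹ * p.2 i) else p.2 i) : Pt G ι)) p) = p := by
  ext i
  · simp
  · by_cases h : i = j
    · subst h; simp
    · by_cases h' : i ∈ A <;> simp [h, h']

/-- The twisting involution attached to `j` and `A`. -/
def ta (j : ι) (A : Finset ι) : Equiv.Perm (Pt G ι) where
  toFun p := (p.2 j, fun i => if i = j then p.1 else if i ∈ A then p.1 * ((p.2 j)⁻¹ * p.2 i)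
    else p.2 i)
  invFun p := (p.2 j, fun i => if i = j then p.1 else if i ∈ A then p.1 * ((p.2 j)⁻¹ * p.2 i)
    else p.2 i)
  left_inv p := ta_ta j A p
  right_inv p := ta_ta j A p

theorem ta_mul_self (j : ι) (A : Finset ι) : (ta j A : Equiv.Perm (Pt G ι)) * ta j A = 1 :=
  Equiv.ext fun p => ta_ta j A p

theorem ta_apply (j : ι) (A : Finset ι) (p : Pt G ι) :
    ta j A p = (p.2 j, fun i => if i = j then p.1 else if i ∈ A then p.1 * ((p.2 j)⁻¹ * p.2 i)
      else p.2 i) := rfl

theorem ta_lam (j : ι) (A : Finset ι) (x : G) :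
    ta j A * lam x = dia (fun i => if i = j ∨ i ∈ A then x else 1) * ta j A := by
  ext p i
  · simp [Equiv.Perm.mul_apply, lam_apply, dia_apply, ta_apply]
  · simp only [Equiv.Perm.mul_apply, lam_apply, dia_apply, ta_apply, Pi.mul_apply]
    by_cases h : i = j
    · simp [h]
    · by_cases h' : i ∈ A <;> simp [h, h', mul_assoc]

/-- The new generators. -/
def bb (a : Idx ι) : Amb G ι := (ta a.1 a.2, Pi.mulSingle a (-1))

theorem bb_mul_self (a : Idx ι) : (bb a : Amb G ι) * bb a = 1 := by
  refine Prod.ext (ta_mul_self a.1 a.2) ?_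
  show (Pi.mulSingle a (-1) : Idx ι → ℤˣ) * Pi.mulSingle a (-1) = 1
  rw [← Pi.mulSingle_mul]
  simp

theorem bb_L0 (a : Idx ι) (x : G) :
    bb a * L0 x * (bb a)⁻¹ = D0 (fun i => if i = a.1 ∨ i ∈ a.2 then x else 1) := by
  rw [mul_inv_eq_iff_eq_mul]
  refine Prod.ext ?_ ?_
  · exact ta_lam a.1 a.2 x
  · simp [bb, L0, D0]

/-- The new generating set, inside the ambient group. -/
def gensb (H : Set G) : Set (Amb G ι) := L0 '' H ∪ Set.range bb

theorem L0b_mem {H : Set G} (hH : Subgroup.closure H = ⊤) (x : G) :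
    (L0 x : Amb G ι) ∈ Subgroup.closure (gensb H : Set (Amb G ι)) := by
  have h1 : x ∈ Subgroup.closure H := by rw [hH]; trivial
  have h2 : (L0 x : Amb G ι) ∈ (Subgroup.closure H).map (L0 : G →* Amb G ι) :=
    Subgroup.mem_map_of_mem _ h1
  rw [MonoidHom.map_closure] at h2
  exact Subgroup.closure_mono Set.subset_union_left h2

theorem bb_mem {H : Set G} (a : Idx ι) :
    (bb a : Amb G ι) ∈ Subgroup.closure (gensb H : Set (Amb G ι)) :=
  Subgroup.subset_closure (Set.mem_union_right _ ⟨a, rfl⟩)

theorem D0b_mem [Finite ι] {H : Set G} (hH : Subgroup.closure H = ⊤) (u : ι → G) :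
    (D0 u : Amb G ι) ∈ Subgroup.closure (gensb H : Set (Amb G ι)) := by
  have key : u ∈ (Subgroup.closure (gensb H : Set (Amb G ι))).comap
      (D0 : (ι → G) →* Amb G ι) := by
    apply Subgroup.pi_mem_of_mulSingle_mem
    intro i
    rw [Subgroup.mem_comap]
    have h := bb_L0 (G := G) ((i, ∅) : Idx ι) (u i)
    have e : (fun k => if k = i ∨ k ∈ (∅ : Finset ι) then u i else 1)
        = (Pi.mulSingle i (u i) : ι → G) := by
      funext k
      by_cases hk : k = i
      · subst hk; simp
      · simp [hk]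
    rw [e] at h
    rw [← h]
    exact Subgroup.mul_mem _ (Subgroup.mul_mem _ (bb_mem _) (L0b_mem hH _))
      (Subgroup.inv_mem _ (bb_mem _))
  exact key

theorem bb_mem_stab (K : Subgroup G) (a : Idx ι) : (bb a : Amb G ι) ∈ stab K := by
  intro p
  show ((p.2 a.1 ∈ K) ∧ ∀ i, (if i = a.1 then p.1 else if i ∈ a.2 then
    p.1 * ((p.2 a.1)⁻¹ * p.2 i) else p.2 i) ∈ K) ↔ _
  constructor
  · rintro ⟨h1, h2⟩
    have h0 : p.1 ∈ K := by simpa using h2 a.1
    refine ⟨h0, fun i => ?_⟩
    by_cases hi : i = a.1
    · rw [hi]; exact h1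
    · have := h2 i
      rw [if_neg hi] at this
      split_ifs at this with hA
      · exact (Subgroup.mul_mem_cancel_left K (K.inv_mem h1)).1
          ((Subgroup.mul_mem_cancel_left K h0).1 this)
      · exact this
  · rintro ⟨h1, h2⟩
    refine ⟨h2 _, fun i => ?_⟩
    split_ifs
    · exact h1
    · exact K.mul_mem h1 (K.mul_mem (K.inv_mem (h2 _)) (h2 i))
    · exact h2 i

end Step

theorem step {G : Type} [Group G] [Finite G] (H : Set G) (hH : IsIrreducibleGeneratingSet H)
    (hinv : ∀ h ∈ H, h * h = 1) (m : ℕ) (hm : ¬ (CayleyGraph H).Colorable m) :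
    ∃ (G' : Type) (_ : Group G') (_ : Finite G') (H' : Set G'),
      IsIrreducibleGeneratingSet H' ∧ (∀ h ∈ H', h * h = 1) ∧
        ¬ (CayleyGraph H').Colorable (m + 1) := by
  classical
  obtain ⟨ι, hι, hJ⟩ := Combinatorics.Line.exists_mono_in_high_dimension G (Fin (m + 1))
  let S : Set (Amb G ι) := gensb H
  let H' : Set (Subgroup.closure S) := {x | (x : Amb G ι) ∈ S}
  have hirr : IsIrreducibleGeneratingSet H' := by
    apply irreducible_of
    rintro s (⟨h, hh, rfl⟩ | ⟨a, rfl⟩)
    · refine ⟨stab (Subgroup.closure (H \ {h})), ?_, ?_⟩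
      · apply L0_notMem_stab
        intro hmem
        apply hH.2 h hh
        rw [eq_top_iff, ← hH.1, Subgroup.closure_le]
        intro y hy
        by_cases hyh : y = h
        · rw [hyh]; exact hmem
        · exact Subgroup.subset_closure ⟨hy, hyh⟩
      · rintro t (⟨h', hh', rfl⟩ | ⟨a, rfl⟩) hne
        · apply L0_mem_stab
          apply Subgroup.subset_closure
          refine ⟨hh', ?_⟩
          intro heq
          apply hne
          rw [show h' = h from heq]
        · exact bb_mem_stab _ a
    · refine ⟨sgn a, ?_, ?_⟩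
      · intro hmem
        have : (Pi.mulSingle a (-1) : Idx ι → ℤˣ) a = 1 := hmem
        rw [Pi.mulSingle_eq_same] at this
        exact absurd this (by decide)
      · rintro t (⟨h', hh', rfl⟩ | ⟨a', rfl⟩) hne
        · show (1 : Idx ι → ℤˣ) a = 1
          rfl
        · have hne' : a ≠ a' := by
            rintro rfl
            exact hne rfl
          show (Pi.mulSingle a' (-1) : Idx ι → ℤˣ) a = 1
          exact Pi.mulSingle_eq_of_ne hne' _
  have hinv' : ∀ h ∈ H', h * h = 1 := by
    rintro ⟨h, hh⟩ (⟨x, hx, e⟩ | ⟨a, e⟩)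
    · apply Subtype.ext
      show h * h = 1
      rw [← show L0 x = h from e, ← map_mul, hinv x hx, map_one]
    · apply Subtype.ext
      show h * h = 1
      rw [← show bb a = h from e, bb_mul_self]
  refine ⟨Subgroup.closure S, inferInstance, inferInstance, H', hirr, hinv', ?_⟩
  rintro ⟨c⟩
  apply hm
  have h1 : (1 : Subgroup.closure S) ∉ H' := one_notMem_of_irreducible hirr
  -- the colouring of the cube and a monochromatic line
  obtain ⟨l, κ, hl⟩ := hJ (fun u => c ⟨D0 u, D0b_mem hH.1 u⟩)
  obtain ⟨j, hj⟩ := l.proper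
  let a : Idx ι := (j, Finset.univ.filter (fun i => l.idxFun i = none))
  let g : ι → G := fun i => (l.idxFun i).getD 1
  have hfac : ∀ x : G, (D0 (l x) : Amb G ι) = bb a * (L0 x * ((bb a)⁻¹ * D0 g)) := by
    intro x
    have e : (l x : ι → G) = (fun i => if i = a.1 ∨ i ∈ a.2 then x else 1) * g := by
      funext i
      simp only [Pi.mul_apply, a, g, Finset.mem_filter, Finset.mem_univ, true_and]
      by_cases hi : l.idxFun i = none
      · rw [Combinatorics.Line.apply_none l x i hi]
        simp [hi]
      · have hij : i ≠ j := by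
          rintro rfl
          exact hi hj
        obtain ⟨y, hy⟩ := Option.ne_none_iff_exists'.1 hi
        rw [Combinatorics.Line.apply_some hy]
        simp [hy, hij]
    rw [e, map_mul, ← bb_L0]
    group
  have hwmem : ((bb a)⁻¹ * D0 g : Amb G ι) ∈ Subgroup.closure S :=
    Subgroup.mul_mem _ (Subgroup.inv_mem _ (bb_mem a)) (D0b_mem hH.1 g)
  let w : Subgroup.closure S := ⟨(bb a)⁻¹ * D0 g, hwmem⟩
  let V : G → Subgroup.closure S := fun x => ⟨L0 x, L0b_mem hH.1 x⟩ * w
  let B : Subgroup.closure S := ⟨bb a, bb_mem a⟩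
  have hBH : B ∈ H' := Or.inr ⟨a, rfl⟩
  have adj : ∀ (h : Subgroup.closure S), h ∈ H' → ∀ v, (CayleyGraph H').Adj v (h * v) := by
    intro h hh v
    refine ⟨?_, h, hh, Or.inl rfl⟩
    intro heq
    have : h = 1 := by
      have := heq.symm
      rwa [mul_eq_right] at this
    exact h1 (this ▸ hh)
  have hcol : ∀ x : G, c (B * V x) = κ := by
    intro x
    have : B * V x = ⟨D0 (l x), D0b_mem hH.1 _⟩ := by
      apply Subtype.ext
      exact (hfac x).symm
    rw [this]
    exact hl x
  have hne : ∀ x : G, c (V x) ≠ κ := by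
    intro x
    rw [← hcol x]
    exact c.valid (adj B hBH (V x))
  let c' : (CayleyGraph H).Coloring {k : Fin (m + 1) // k ≠ κ} :=
    SimpleGraph.Coloring.mk (fun x => ⟨c (V x), hne x⟩) (by
      intro x y hxy
      have key : ∀ x y : G, (∃ h ∈ H, y = h * x) → c (V x) ≠ c (V y) := by
        rintro x y ⟨h, hh, rfl⟩
        have e : V (h * x) = ⟨L0 h, L0b_mem hH.1 h⟩ * V x := by
          apply Subtype.ext
          show (L0 (h * x) : Amb G ι) * _ = L0 h * (L0 x * _)
          rw [map_mul, mul_assoc]
        rw [e]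
        exact c.valid (adj _ (Or.inl ⟨h, hh, rfl⟩) (V x))
      intro heq
      have heq' : c (V x) = c (V y) := congrArg Subtype.val heq
      obtain ⟨-, h, hh, h2 | h2⟩ := hxy
      · exact key x y ⟨h, hh, h2⟩ heq'
      · exact key y x ⟨h, hh, h2⟩ heq'.symm)
  have := c'.colorable
  have hcard : Fintype.card {k : Fin (m + 1) // k ≠ κ} = m := by
    rw [Fintype.card_subtype_compl, Fintype.card_fin, Fintype.card_subtype_eq]
    rfl
  rwa [hcard] at this

/-- For every `m` there is a finite group with an irreducible generating set consisting of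
involutions whose Cayley graph is not `m`-colourable. -/
theorem main (m : ℕ) : ∃ (G : Type) (_ : Group G) (_ : Finite G) (H : Set G),
      IsIrreducibleGeneratingSet H ∧ (∀ h ∈ H, h * h = 1) ∧
        ¬ (CayleyGraph H).Colorable m := by
  induction m with
  | zero =>
    refine ⟨Unit, inferInstance, inferInstance, ∅, ⟨?_, ?_⟩, ?_, ?_⟩
    · exact Subsingleton.elim _ _
    · intro h hh
      exact absurd hh (Set.notMem_empty h)
    · intro h hh
      exact absurd hh (Set.notMem_empty h)
    · rintro ⟨c⟩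
      exact (c ()).elim0
  | succ m ih =>
    obtain ⟨G, _, _, H, hH, hi, hm⟩ := ih
    exact step H hH hi m hm

end Pool.Agent.U401.Inv
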